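import Pool.Agent.H516.PCF.All

/-! Crossing lemma (subtask 5602, for helper516). -/

set_option autoImplicit false

namespace Pool.Agent.H553.PCF

open Pool.Agent.H516.PCF Polynomial

theorem cnt_eq {F : Type} [Field F] (w : F → ℝ) (U : F[X]) (a : F) (ρ : ℝ)
    (h : ¬ brk w U a ρ) : cnt w U a ρ = ccnt w U a ρ := by
  classical
  unfold cnt ccnt
  congr 1
  refine Multiset.filter_congr fun z hz => ?_
  constructor
  · rintro (h1 | h1)
    · exact Or.inl h1
    · exact Or.inr h1.le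
  · rintro (h1 | h1)
    · exact Or.inl h1
    · by_cases hza : z = a
      · exact Or.inl hza
      · rcases h1.lt_or_eq with h2 | h2
        · exact Or.inr h2
        · exact absurd ⟨z, hz, hza, h2.symm⟩ h

/-- local linearity at a point which is not a break point -/
theorem lin (hGVB : S_GVB) {F : Type} [Field F] [CharZero F] [IsAlgClosed F] {p : ℕ} {w : F → ℝ}
    (hp : p.Prime) (hw : NA p w) (U : F[X]) (a : F) (ρ : ℝ) (h : ¬ brk w U a ρ) :
    ∃ (m : ℝ) (ε : ℝ), 0 < ε ∧ ∀ t : ℝ, |t| < ε → gv w U a (ρ + t) = gv w U a ρ + m * t := by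
  obtain ⟨ε, hε, H⟩ := (hGVB F p w hp hw).2.2.2.2.2 U a ρ
  refine ⟨cnt w U a ρ, ε, hε, fun t ht => ?_⟩
  rcases le_total 0 t with h0 | h0
  · rw [abs_of_nonneg h0] at ht
    exact (H t h0 ht).1
  · rw [abs_of_nonpos h0] at ht
    have h1 := (H (-t) (by linarith) ht).2.1
    rw [← cnt_eq w U a ρ h] at h1
    have e : ρ - -t = ρ + t := by ring
    rw [e] at h1
    rw [h1]
    ring

theorem cross (hGVB : S_GVB) (hUM : S_UM) : S_CROSS := by
  intro F _ _ _ p w hp hw U₁ U₂ U₃ c₁ c₂ h1 h2 h3 hc1 hc2 hU a ρ heq hb1 hb2 hb3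
  obtain ⟨m₁, ε₁, he1, H1⟩ := lin hGVB hp hw U₁ a ρ hb1
  obtain ⟨m₂, ε₂, he2, H2⟩ := lin hGVB hp hw U₂ a ρ hb2
  obtain ⟨m₃, ε₃, he3, H3⟩ := lin hGVB hp hw U₃ a ρ hb3
  have hC1 : C c₁ * U₁ ≠ 0 := mul_ne_zero (by simpa using hc1) h1
  have hC2 : C c₂ * U₂ ≠ 0 := mul_ne_zero (by simpa using hc2) h2
  have hg1 : ∀ r, gv w (C c₁ * U₁) a r = w c₁ + gv w U₁ a r := fun r =>
    (hGVB F p w hp hw).2.1 c₁ U₁ hc1 h1 a r
  have hg2 : ∀ r, gv w (C c₂ * U₂) a r = w c₂ + gv w U₂ a r := fun r =>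
    (hGVB F p w hp hw).2.1 c₂ U₂ hc2 h2 a r
  have hum : ∀ r, (w c₁ + gv w U₁ a r < w c₂ + gv w U₂ a r → gv w U₃ a r = w c₁ + gv w U₁ a r) ∧
      (w c₂ + gv w U₂ a r < w c₁ + gv w U₁ a r → gv w U₃ a r = w c₂ + gv w U₂ a r) := by
    intro r
    have := (hUM F p w hp hw _ _ U₃ hC1 hC2 h3 hU a r).2
    rw [hg1, hg2] at this
    exact this
  set ε := min ε₁ (min ε₂ ε₃) with hε
  have hε0 : 0 < ε := lt_min he1 (lt_min he2 he3)
  have hL1 : ∀ t : ℝ, |t| < ε → gv w U₁ a (ρ + t) = gv w U₁ a ρ + m₁ * t := fun t ht =>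
    H1 t (ht.trans_le (min_le_left _ _))
  have hL2 : ∀ t : ℝ, |t| < ε → gv w U₂ a (ρ + t) = gv w U₂ a ρ + m₂ * t := fun t ht =>
    H2 t (ht.trans_le ((min_le_right _ _).trans (min_le_left _ _)))
  have hL3 : ∀ t : ℝ, |t| < ε → gv w U₃ a (ρ + t) = gv w U₃ a ρ + m₃ * t := fun t ht =>
    H3 t (ht.trans_le ((min_le_right _ _).trans (min_le_right _ _)))
  have hm : m₁ = m₂ := by
    by_contra hne
    have q1 : |ε / 2| < ε := by rw [abs_of_pos (by positivity)]; linarith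
    have q2 : |ε / 4| < ε := by rw [abs_of_pos (by positivity)]; linarith
    have q3 : |(-(ε / 2))| < ε := by rw [abs_neg]; exact q1
    have q4 : |(-(ε / 4))| < ε := by rw [abs_neg]; exact q2
    have a1 := hum (ρ + ε / 2)
    have a2 := hum (ρ + ε / 4)
    have a3 := hum (ρ + -(ε / 2))
    have a4 := hum (ρ + -(ε / 4))
    rw [hL1 _ q1, hL2 _ q1, hL3 _ q1] at a1
    rw [hL1 _ q2, hL2 _ q2, hL3 _ q2] at a2
    rw [hL1 _ q3, hL2 _ q3, hL3 _ q3] at a3
    rw [hL1 _ q4, hL2 _ q4, hL3 _ q4] at a4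
    rcases lt_or_gt_of_ne hne with hlt | hlt
    · have b1 := a1.1 (by nlinarith)
      have b2 := a2.1 (by nlinarith)
      have b3 := a3.2 (by nlinarith)
      have b4 := a4.2 (by nlinarith)
      have e1 : (m₃ - m₁) * (ε / 4) = 0 := by linarith
      have e2 : (m₃ - m₂) * (ε / 4) = 0 := by linarith
      have f1 : m₃ - m₁ = 0 := by
        rcases mul_eq_zero.1 e1 with h | h
        · exact h
        · linarith
      have f2 : m₃ - m₂ = 0 := by
        rcases mul_eq_zero.1 e2 with h | h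
        · exact h
        · linarith
      exact hne (by linarith)
    · have b1 := a1.2 (by nlinarith)
      have b2 := a2.2 (by nlinarith)
      have b3 := a3.1 (by nlinarith)
      have b4 := a4.1 (by nlinarith)
      have e1 : (m₃ - m₂) * (ε / 4) = 0 := by linarith
      have e2 : (m₃ - m₁) * (ε / 4) = 0 := by linarith
      have f1 : m₃ - m₂ = 0 := by
        rcases mul_eq_zero.1 e1 with h | h
        · exact h
        · linarith
      have f2 : m₃ - m₁ = 0 := by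
        rcases mul_eq_zero.1 e2 with h | h
        · exact h
        · linarith
      exact hne (by linarith)
  refine ⟨ε, hε0, fun ρ' hρ' => ?_⟩
  have k1 := hL1 (ρ' - ρ) hρ'
  have k2 := hL2 (ρ' - ρ) hρ'
  have e : ρ + (ρ' - ρ) = ρ' := by ring
  rw [e] at k1 k2
  rw [k1, k2, hm]
  linarith

end Pool.Agent.H553.PCF
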